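import Pool.Agent.Q293.EW.Final
import Pool.Agent.Q293.EW.Lyap
import Pool.Agent.Q293.EW.Log5
import Pool.Agent.Q293.EW.Small

/-! # Q1 of MP_8414c7_pr: one smooth compactly supported weight for all laws

There are an absolute constant `C₃` and one weighting function `w` (smooth, support in `[0,1]`,
nonnegative, integral one) such that for all i.i.d. `X₁, X₂, …` with
`E X₁ = 0`, `E X₁² = 1`, `E X₁³ = 0`, `E |X₁|⁵ < ∞` and all `N ≥ 2` with `Ā_N > 0`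
the distribution function of `S_N` is within `C₃ E |X₁|⁵ / N^(3/2)` of the corrected normal one. -/

set_option autoImplicit false

namespace Pool.Agent.Results.MP_8414c7_pr.SmoothWeightsEdgeworth

open MeasureTheory ProbabilityTheory Set
open Pool.Agent.Q293.EW (IsWeight AN GGc SN)

theorem result.{u} : ∃ C₃ : ℝ, 0 < C₃ ∧ ∃ w : ℝ → ℝ, IsWeight w ∧
    ∀ {Ω : Type u} [MeasurableSpace Ω] (P : Measure Ω) [IsProbabilityMeasure P] (X : ℕ → Ω → ℝ),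
    (∀ n, 1 ≤ n → Measurable (X n)) → iIndepFun (fun n : ℕ => X (n + 1)) P →
    (∀ n, 1 ≤ n → IdentDistrib (X n) (X 1) P P) →
    Integrable (fun ω => |X 1 ω| ^ 5) P → ∫ ω, X 1 ω ∂P = 0 → ∫ ω, X 1 ω ^ 2 ∂P = 1 →
    ∫ ω, X 1 ω ^ 3 ∂P = 0 → ∀ N : ℕ, 2 ≤ N → 0 < AN w N → ∀ x : ℝ,
      |P.real {ω | SN w X N ω ≤ x} - GGc (∫ ω, |X 1 ω| ^ 4 ∂P) N x| ≤
        C₃ * (∫ ω, |X 1 ω| ^ 5 ∂P) / (N:ℝ) ^ (3 / 2 : ℝ) :=
  Pool.Agent.Q293.EW.rv_of_law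
    (Pool.Agent.Q293.EW.law Pool.Agent.Q293.EW.ess Pool.Agent.Q293.EW.log5
      Pool.Agent.Q293.EW.small Pool.Agent.Q293.EW.mid Pool.Agent.Q293.EW.cosj
      Pool.Agent.Q293.EW.weight Pool.Agent.Q293.EW.riem Pool.Agent.Q293.EW.coeff
      Pool.Agent.Q293.EW.lyap)

end Pool.Agent.Results.MP_8414c7_pr.SmoothWeightsEdgeworth
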